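import Pool.Agent.Q47.Champ6

/-!
# MP_3b2897_nt: the doubling orbit of the binary Champernowne constant has weak pair correlations

`chDigits n` is the concatenation of the binary expansions of `1, ..., n`, `chDigit i` the `i`-th
digit (counted from `0`) of the infinite word `1 10 11 100 101 ...`, `α` the number with these
binary digits, `x n = {2^n α}`, and `R N s β` counts the ordered pairs of distinct indices
`1 ≤ l, m ≤ N` with `‖x l - x m‖ ≤ s N^(-β)`.  The theorem: for every `0 < β < 1/2` and every
`s ≥ 0`, `N^(β-2) R_N(s, β) → 2 s`; in particular the sequence has weak pair correlations.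
-/

set_option autoImplicit false

namespace Pool.Agent.Results.MP_3b2897_nt.WeakPairCorrelations

open Filter Topology Finset

/-- the concatenation of the binary expansions (most significant digit first) of `1, 2, ..., n` -/
def chDigits (n : ℕ) : List ℕ := (List.range n).flatMap (fun m => (Nat.digits 2 (m + 1)).reverse)

/-- the `i`-th digit, counted from `0`, of the infinite word `1 10 11 100 101 110 111 1000 ...` -/
def chDigit (i : ℕ) : ℕ := (chDigits (i + 1)).getD i 0

/-- the binary Champernowne constant `0.1 10 11 100 101 ...` -/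
noncomputable def champernowne : ℝ := ∑' i : ℕ, (chDigit i : ℝ) / 2 ^ (i + 1)

/-- the distance to the nearest integer -/
noncomputable def distInt (t : ℝ) : ℝ := |t - round t|

/-- the pair counting function of a real sequence (indices from `1`) -/
noncomputable def R (x : ℕ → ℝ) (N : ℕ) (s β : ℝ) : ℕ :=
  ((Icc 1 N ×ˢ Icc 1 N).filter
    (fun p => p.1 ≠ p.2 ∧ distInt (x p.1 - x p.2) ≤ s * (N : ℝ) ^ (-β))).card

/-- the sequence `x_n = {2^n α}` -/
noncomputable def orbit (n : ℕ) : ℝ := Int.fract (2 ^ n * champernowne)

/-- **Full answer (yes).**  For every `β ∈ (0, 1/2)` and every `s ≥ 0` one has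
`N^(-(2-β)) R_N(s, β) → 2 s`; so the sequence has weak pair correlations. -/
theorem result (β : ℝ) (h0 : 0 < β) (h1 : β < 1 / 2) (s : ℝ) (hs : 0 ≤ s) :
    Tendsto (fun N : ℕ => (N : ℝ) ^ (-(2 - β)) * (R orbit N s β : ℝ)) atTop (𝓝 (2 * s)) := by
  have h := Pool.Agent.Q47.Champ.main h0 h1 hs
  rw [show -(2 - β) = β - 2 by ring]
  exact h

end Pool.Agent.Results.MP_3b2897_nt.WeakPairCorrelations
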